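import Mathlib
import Pool.Agent.Results.MP_337ab5_co.GameConventionOne

set_option autoImplicit false

/-!
# Closing a cycle, and the number of the cycles

Helper file for `Pool/Agent/Results/MP_337ab5_co/ConventionTwo.lean`.
-/

namespace Pool.Agent.J4H88.PG

open Equiv Pool.Agent.Results.MP_337ab5_co.GameConventionOne

theorem ap_inv {α : Type*} (π : Perm α) (x : α) : π (π⁻¹ x) = x := π.apply_symm_apply x

theorem inv_ap {α : Type*} (π : Perm α) (x : α) : π⁻¹ (π x) = x := π.symm_apply_apply x

/-! ### closing a cycle -/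

section close

variable {N : ℕ}

theorem exists_back (π : Perm (Fin N)) (p : Fin N) : ∃ k : ℕ, p ≤ (π⁻¹ ^ (k + 1)) p := by
  refine ⟨orderOf π⁻¹ - 1, ?_⟩
  have h : orderOf π⁻¹ - 1 + 1 = orderOf π⁻¹ := Nat.sub_add_cancel (orderOf_pos _)
  rw [h, pow_orderOf_eq_one]
  exact le_rfl

open Classical in
/-- the number of steps back from `p` on positions before `p` -/
noncomputable def bk (π : Perm (Fin N)) (p : Fin N) : ℕ := Nat.find (exists_back π p)

/-- the value which closes the cycle of `p` -/
noncomputable def cl (π : Perm (Fin N)) (p : Fin N) : Fin N := (π⁻¹ ^ bk π p) p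

theorem bk_spec (π : Perm (Fin N)) (p : Fin N) : p ≤ (π⁻¹ ^ (bk π p + 1)) p := by
  classical
  unfold bk
  exact Nat.find_spec (exists_back π p)

theorem bk_min (π : Perm (Fin N)) (p : Fin N) {j : ℕ} (h1 : 1 ≤ j) (h : j ≤ bk π p) :
    (π⁻¹ ^ j) p < p := by
  classical
  unfold bk at h
  have h2 := Nat.find_min (exists_back π p) (m := j - 1) (by omega)
  rw [Nat.sub_add_cancel h1] at h2
  exact not_le.1 h2

theorem close_max {π ρ : Perm (Fin N)} {p : Fin N} (h1 : ∀ x, x < p → ρ x = π x)
    (h2 : ρ p = cl π p) (x : Fin N) (hx : ρ.SameCycle p x) : x ≤ p := by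
  have key : ∀ n : ℕ, ∃ j ≤ bk π p, (ρ ^ n) p = (π⁻¹ ^ j) p := by
    intro n
    induction n with
    | zero => exact ⟨0, Nat.zero_le _, rfl⟩
    | succ n ih =>
      obtain ⟨j, hj, hj2⟩ := ih
      rw [pow_succ', Perm.mul_apply, hj2]
      rcases Nat.eq_zero_or_pos j with h | h
      · subst h
        refine ⟨bk π p, le_rfl, ?_⟩
        rw [pow_zero, Perm.one_apply, h2]
        rfl
      · refine ⟨j - 1, by omega, ?_⟩
        rw [h1 _ (bk_min π p h hj)]
        obtain ⟨i, rfl⟩ : ∃ i, j = i + 1 := ⟨j - 1, by omega⟩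
        rw [pow_succ', Perm.mul_apply, ap_inv]
        rfl
  obtain ⟨n, -, hn⟩ := hx.exists_pow_eq'
  obtain ⟨j, hj, hj2⟩ := key n
  rw [← hn, hj2]
  rcases Nat.eq_zero_or_pos j with h | h
  · subst h
    exact le_rfl
  · exact (bk_min π p h hj).le

theorem cl_ne (π : Perm (Fin N)) (p i : Fin N) (hi : i < p) : cl π p ≠ π i := by
  intro h
  have h1 := bk_spec π p
  rw [pow_succ', Perm.mul_apply] at h1
  unfold cl at h
  rw [h, inv_ap] at h1
  exact absurd hi (not_lt.2 h1)

/-- `π` extends the word `w` -/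
def Ext (w : List (Fin N)) (π : Perm (Fin N)) : Prop :=
  ∀ i (hi : i < N), i < w.length → w[i]? = some (π ⟨i, hi⟩)

open Classical in
/-- the strategy: close a cycle of the current word -/
noncomputable def strat (v₀ : Fin N) (h : List (Fin N)) : Fin N :=
  if H : (∃ π, Ext (curVals h) π) ∧ (curVals h).length < N then
    cl H.1.choose ⟨(curVals h).length, H.2⟩ else v₀

theorem strat_spec (v₀ : Fin N) (σ τ : Perm (Fin N)) (m : ℕ) (hm : m < 2 * N) :
    ∃ π : Perm (Fin N),
      (∀ i (hi : i < widx N m), π ⟨i, hi.trans (widx_lt hm)⟩ =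
        cur σ τ m ⟨i, hi.trans (widx_lt hm)⟩) ∧
      strat v₀ (history σ τ m hm.le) = cl π ⟨widx N m, widx_lt hm⟩ := by
  have H : (∃ π, Ext (curVals (history σ τ m hm.le)) π) ∧
      (curVals (history σ τ m hm.le)).length < N := by
    refine ⟨⟨cur σ τ m, fun i hi hw => ?_⟩, by rw [curVals_length]; exact widx_lt hm⟩
    rw [curVals_length] at hw
    exact curVals_get σ τ m hm i hw
  refine ⟨H.1.choose, fun i hi => ?_, ?_⟩
  · have h3 := H.1.choose_spec i (hi.trans (widx_lt hm)) (by rw [curVals_length]; exact hi)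
    rw [curVals_get σ τ m hm i hi] at h3
    exact (Option.some.inj h3).symm
  · unfold strat
    rw [dif_pos H]
    congr 2
    exact curVals_length σ τ m hm.le

theorem strat_max (v₀ : Fin N) (σ τ : Perm (Fin N)) (m : ℕ) (hm : m < 2 * N)
    (h : entry σ τ m hm = strat v₀ (history σ τ m hm.le)) (x : Fin N)
    (hx : (cur σ τ m).SameCycle ⟨widx N m, widx_lt hm⟩ x) : x ≤ ⟨widx N m, widx_lt hm⟩ := by
  obtain ⟨π, h1, h2⟩ := strat_spec v₀ σ τ m hm
  refine close_max (π := π) (fun y hy => ?_) ?_ x hx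
  · exact (h1 y hy).symm
  · rw [← h2, ← h, entry_eq]

end close

/-! ### the number of cycles -/

section cycles

variable {N : ℕ}

/-- a label of the cycle of `x` -/
def label (ρ : Perm (Fin N)) (x : Fin N) : Perm (Fin N) ⊕ Fin N :=
  if ρ x = x then Sum.inr x else Sum.inl (ρ.cycleOf x)

theorem label_of_sameCycle {ρ : Perm (Fin N)} {x y : Fin N} (h : ρ.SameCycle x y) :
    label ρ x = label ρ y := by
  unfold label
  by_cases hx : ρ x = x
  · have hxy : x = y := by
      obtain ⟨n, -, hn⟩ := h.exists_pow_eq'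
      rw [← hn]
      exact (Perm.pow_apply_eq_self_of_apply_eq_self hx n).symm
    rw [hxy]
  · have hy : ρ y ≠ y := fun h1 => hx (h.apply_eq_self_iff.2 h1)
    rw [if_neg hx, if_neg hy, h.cycleOf_eq]

theorem sameCycle_of_label {ρ : Perm (Fin N)} {x y : Fin N} (h : label ρ x = label ρ y) :
    ρ.SameCycle x y := by
  unfold label at h
  split_ifs at h with h1 h2 h2
  · rw [Sum.inr.inj h]
  · exact (Perm.sameCycle_iff_cycleOf_eq_of_mem_support (Perm.mem_support.2 h1)
      (Perm.mem_support.2 h2)).2 (Sum.inl.inj h)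

/-- the set of the labels -/
def lab (ρ : Perm (Fin N)) : Finset (Perm (Fin N) ⊕ Fin N) := Finset.univ.image (label ρ)

theorem card_lab (ρ : Perm (Fin N)) :
    (lab ρ).card + ρ.support.card = N + Multiset.card ρ.cycleType := by
  have h : lab ρ = (ρ.cycleFactorsFinset).disjSum (Finset.univ.filter fun x => ρ x = x) := by
    ext l
    rw [lab, Finset.mem_image, Finset.mem_disjSum]
    constructor
    · rintro ⟨x, -, hx⟩
      unfold label at hx
      split_ifs at hx with h1
      · right
        exact ⟨x, by simpa using h1, hx⟩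
      · left
        exact ⟨ρ.cycleOf x, Perm.cycleOf_mem_cycleFactorsFinset_iff.2 (Perm.mem_support.2 h1), hx⟩
    · rintro (⟨c, hc, rfl⟩ | ⟨x, hx, rfl⟩)
      · obtain ⟨a, ha⟩ := (Perm.mem_cycleFactorsFinset_iff.1 hc).1.nonempty_support
        refine ⟨a, Finset.mem_univ _, ?_⟩
        have h1 : ρ a ≠ a := Perm.mem_support.1 (Perm.mem_cycleFactorsFinset_support_le hc ha)
        unfold label
        rw [if_neg h1, ← Perm.cycle_is_cycleOf ha hc]
      · refine ⟨x, Finset.mem_univ _, ?_⟩
        unfold label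
        rw [if_pos (by simpa using hx)]
  have h2 : (Finset.univ.filter fun x => ρ x = x).card + ρ.support.card = N := by
    have h3 := Finset.card_filter_add_card_filter_not (s := (Finset.univ : Finset (Fin N)))
      (fun x => ρ x = x)
    rw [Finset.card_univ, Fintype.card_fin] at h3
    exact h3
  rw [h, Finset.card_disjSum, Perm.cycleType_def, Multiset.card_map]
  have h4 : (Multiset.card ρ.cycleFactorsFinset.val) = ρ.cycleFactorsFinset.card := rfl
  omega

/-- the functions which are constant on the cycles -/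
noncomputable def V (ρ : Perm (Fin N)) : Submodule ℚ (Fin N → ℚ) :=
  LinearMap.range (LinearMap.funLeft ℚ ℚ
    (fun x => (⟨label ρ x, Finset.mem_image_of_mem _ (Finset.mem_univ _)⟩ : lab ρ)))

theorem finrank_V (ρ : Perm (Fin N)) : Module.finrank ℚ (V ρ) = (lab ρ).card := by
  unfold V
  rw [LinearMap.finrank_range_of_inj (LinearMap.funLeft_injective_of_surjective _ _ _ ?_)]
  · simp
  · rintro ⟨l, hl⟩
    obtain ⟨x, -, hx⟩ := Finset.mem_image.1 hl
    exact ⟨x, Subtype.ext hx⟩

theorem V_apply {ρ : Perm (Fin N)} {f : Fin N → ℚ} (hf : f ∈ V ρ) (x : Fin N) :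
    f (ρ x) = f x := by
  obtain ⟨g, rfl⟩ := hf
  simp only [LinearMap.funLeft_apply]
  congr 1
  apply Subtype.ext
  show label ρ (ρ x) = label ρ x
  apply label_of_sameCycle
  exact Perm.sameCycle_apply_left.2 (Perm.SameCycle.refl _ _)

theorem card_add_card_le (hN : 0 < N) {σ τ : Perm (Fin N)}
    (h : ∀ x y, ∃ g ∈ Subgroup.closure {σ, τ}, g x = y) :
    (lab σ).card + (lab τ).card ≤ N + 1 := by
  have h1 : V σ ⊓ V τ ≤ Submodule.span ℚ {fun _ => (1 : ℚ)} := by
    rintro f ⟨hf1, hf2⟩
    rw [Submodule.mem_span_singleton]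
    have h2 : ∀ g : Perm (Fin N), g ∈ Subgroup.closure {σ, τ} → ∀ x, f (g x) = f x := by
      intro g hg
      induction hg using Subgroup.closure_induction with
      | mem g hg =>
        rcases hg with rfl | hg
        · exact V_apply hf1
        · rw [Set.mem_singleton_iff] at hg
          rw [hg]
          exact V_apply hf2
      | one => intro x; rfl
      | mul a b _ _ ha hb =>
        intro x
        rw [Perm.mul_apply, ha, hb]
      | inv a _ ha =>
        intro x
        rw [← ha (a⁻¹ x), ap_inv]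
    refine ⟨f ⟨0, hN⟩, ?_⟩
    funext x
    obtain ⟨g, hg, hgx⟩ := h ⟨0, hN⟩ x
    have h3 := h2 g hg ⟨0, hN⟩
    rw [hgx] at h3
    simp [h3]
  have h2 := Submodule.finrank_sup_add_finrank_inf_eq (V σ) (V τ)
  have h3 : Module.finrank ℚ (V σ ⊓ V τ : Submodule ℚ (Fin N → ℚ)) ≤ 1 :=
    (Submodule.finrank_mono h1).trans ((finrank_span_le_card _).trans (by simp))
  have h4 : Module.finrank ℚ (V σ ⊔ V τ : Submodule ℚ (Fin N → ℚ)) ≤ N := by
    have h5 := Submodule.finrank_le (V σ ⊔ V τ : Submodule ℚ (Fin N → ℚ))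
    rwa [Module.finrank_fin_fun] at h5
  rw [finrank_V, finrank_V] at h2
  omega

/-- a permutation of `Fin (4 k + 1)` with `2 k + 1` cycles is even -/
theorem sign_eq_one {ρ : Perm (Fin N)} {k : ℕ} (hN : N = 4 * k + 1)
    (h : (lab ρ).card = 2 * k + 1) : Perm.sign ρ = 1 := by
  have h1 := card_lab ρ
  have h2 : ρ.support.card ≤ N := by
    have := Finset.card_le_univ ρ.support
    rwa [Fintype.card_fin] at this
  rw [Perm.sign_of_cycleType, Perm.sum_cycleType]
  have h3 : Even (ρ.support.card + Multiset.card ρ.cycleType) :=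
    ⟨k + Multiset.card ρ.cycleType, by omega⟩
  exact h3.neg_one_pow

/-- distinct greatest elements of cycles give distinct labels -/
theorem le_card_lab {ρ : Perm (Fin N)} {n : ℕ} (p : Fin n → Fin N) (hp : Function.Injective p)
    (hmax : ∀ i x, ρ.SameCycle (p i) x → x ≤ p i) : n ≤ (lab ρ).card := by
  have h : (Finset.univ.image fun i => label ρ (p i)).card = n := by
    rw [Finset.card_image_of_injective, Finset.card_univ, Fintype.card_fin]
    intro i j hij
    have h1 := sameCycle_of_label hij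
    exact hp (le_antisymm (hmax j _ h1.symm) (hmax i _ h1))
  rw [← h]
  apply Finset.card_le_card
  intro l hl
  obtain ⟨i, -, hi⟩ := Finset.mem_image.1 hl
  exact Finset.mem_image.2 ⟨p i, Finset.mem_univ _, hi⟩

end cycles

end Pool.Agent.J4H88.PG
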