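import Mathlib
import Pool.Agent.J4H88.PG.Close

set_option autoImplicit false

namespace Pool.Agent.J4H88.PG

open Equiv Pool.Agent.Results.MP_337ab5_co.GameConventionOne

variable {N : ℕ}

/-- the greatest element of its cycle -/
def IsMax (ρ : Perm (Fin N)) (p : Fin N) : Prop := ∀ x, ρ.SameCycle p x → x ≤ p

theorem eq_cl {π ρ : Perm (Fin N)} {p : Fin N} (h1 : ∀ x, x < p → ρ x = π x)
    (h : IsMax ρ p) : ρ p = cl π p := by
  have key : ∀ j, j ≤ bk π p → (ρ⁻¹ ^ j) p = (π⁻¹ ^ j) p := by
    intro j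
    induction j with
    | zero => intro _; rfl
    | succ j ih =>
      intro hj
      rw [pow_succ', Perm.mul_apply, ih (by omega)]
      have h2 := h1 _ (bk_min π p (j := j + 1) (by omega) hj)
      rw [pow_succ', Perm.mul_apply, ap_inv] at h2
      rw [pow_succ', Perm.mul_apply]
      conv_lhs => rw [← h2]
      rw [inv_ap]
  have h3 := key _ le_rfl
  have hy : (ρ⁻¹ ^ (bk π p + 1)) p ≤ p := by
    apply h
    refine ⟨-((bk π p : ℤ) + 1), ?_⟩
    rw [zpow_neg, ← inv_zpow]
    norm_cast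
  rcases lt_or_eq_of_le hy with hlt | heq
  · exfalso
    have h4 := h1 _ hlt
    rw [pow_succ', Perm.mul_apply, ap_inv, h3] at h4
    have h5 : ρ⁻¹ ((π⁻¹ ^ bk π p) p) = π⁻¹ ((π⁻¹ ^ bk π p) p) := by
      apply π.injective
      rw [ap_inv, ← h4]
    have h6 := bk_spec π p
    rw [pow_succ', Perm.mul_apply, ← h5, ← h3, ← Perm.mul_apply, ← pow_succ'] at h6
    exact absurd hlt (not_lt.2 h6)
  · rw [pow_succ', Perm.mul_apply, h3] at heq
    unfold cl
    rw [← heq, ap_inv, heq]

theorem isMax_congr {ρ ρ' : Perm (Fin N)} {p : Fin N} (h : ∀ x, x ≤ p → ρ x = ρ' x)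
    (hm : IsMax ρ p) : IsMax ρ' p := by
  have h1 := eq_cl (π := ρ') (fun x hx => h x hx.le) hm
  rw [h p le_rfl] at h1
  exact fun x hx => close_max (π := ρ') (fun _ _ => rfl) h1 x hx

/-- the functions which are constant on the components at the position `p` of the second word -/
def W (σ τ : Perm (Fin N)) (p : ℕ) : Submodule ℚ (Fin N → ℚ) where
  carrier := {f | (∀ x, f (σ x) = f x) ∧ ∀ x : Fin N, (x : ℕ) < p → f (τ x) = f x}
  add_mem' := by
    rintro f g ⟨h1, h2⟩ ⟨h3, h4⟩
    exact ⟨fun x => by simp only [Pi.add_apply, h1, h3],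
      fun x hx => by simp only [Pi.add_apply, h2 x hx, h4 x hx]⟩
  zero_mem' := ⟨fun _ => rfl, fun _ _ => rfl⟩
  smul_mem' := by
    rintro c f ⟨h1, h2⟩
    exact ⟨fun x => by simp only [Pi.smul_apply, h1],
      fun x hx => by simp only [Pi.smul_apply, h2 x hx]⟩

theorem W_congr {σ τ τ' : Perm (Fin N)} {p : ℕ} (h : ∀ x : Fin N, (x : ℕ) < p → τ x = τ' x) :
    W σ τ p = W σ τ' p := by
  ext f
  constructor
  · rintro ⟨h1, h2⟩
    exact ⟨h1, fun x hx => by rw [← h x hx]; exact h2 x hx⟩
  · rintro ⟨h1, h2⟩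
    exact ⟨h1, fun x hx => by rw [h x hx]; exact h2 x hx⟩

/-- the value `v` joins two components at the position `p` -/
def Joins (σ τ : Perm (Fin N)) (p v : Fin N) : Prop := ∃ f ∈ W σ τ p, f v ≠ f p

/-- a free value joins two components -/
def CanJoin (σ τ : Perm (Fin N)) (p : Fin N) : Prop :=
  ∃ v, (∀ j : Fin N, j < p → τ j ≠ v) ∧ Joins σ τ p v

theorem joins_congr {σ τ τ' : Perm (Fin N)} {p v : Fin N} (h : ∀ x : Fin N, x < p → τ x = τ' x)
    (hj : Joins σ τ p v) : Joins σ τ' p v := by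
  obtain ⟨f, hf, hf2⟩ := hj
  exact ⟨f, by rw [← W_congr h]; exact hf, hf2⟩

theorem canJoin_congr {σ τ τ' : Perm (Fin N)} {p : Fin N} (h : ∀ x : Fin N, x < p → τ x = τ' x)
    (hj : CanJoin σ τ p) : CanJoin σ τ' p := by
  obtain ⟨v, hv, hv2⟩ := hj
  exact ⟨v, fun j hj => by rw [← h j hj]; exact hv j hj, joins_congr h hv2⟩

/-- the rule for the entry `m` -/
structure Rule (σ τ : Perm (Fin N)) (m : ℕ) : Prop where
  first : ∀ p : Fin N, (p : ℕ) = m → m < N - 1 → ¬ IsMax σ p
  join : ∀ p : Fin N, m = N + p → CanJoin σ τ p → Joins σ τ p (τ p)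
  sign : ∀ p : Fin N, m = N + p → (p : ℕ) = N - 2 → ¬ CanJoin σ τ p → Perm.sign τ = -1

/-- the first `m` entries agree -/
def Agree (σ τ σ' τ' : Perm (Fin N)) (m : ℕ) : Prop :=
  (∀ x : Fin N, (x : ℕ) < m → σ x = σ' x) ∧ ∀ x : Fin N, N + (x : ℕ) < m → τ x = τ' x

theorem perm_ext_last {τ τ' : Perm (Fin N)} (h : ∀ x : Fin N, (x : ℕ) < N - 1 → τ x = τ' x) :
    τ = τ' := by
  apply Equiv.ext
  intro x
  by_cases hx : (x : ℕ) < N - 1
  · exact h x hx
  · obtain ⟨y, hy⟩ := τ.surjective (τ' x)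
    by_cases hy1 : (y : ℕ) < N - 1
    · rw [h y hy1] at hy
      have := τ'.injective hy
      rw [this] at hy1
      exact absurd hy1 hx
    · have : y = x := by
        apply Fin.ext
        have := x.2
        have := y.2
        omega
      rw [this] at hy
      exact hy

theorem rule_congr {σ τ σ' τ' : Perm (Fin N)} {m : ℕ} (hN : 3 ≤ N)
    (h : Agree σ τ σ' τ' (m + 1)) (hr : Rule σ τ m) : Rule σ' τ' m := by
  refine ⟨?_, ?_, ?_⟩
  · intro p hp hm hmax
    refine hr.first p hp hm (isMax_congr (fun x hx => ?_) hmax)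
    exact (h.1 x (by rw [Fin.le_def] at hx; omega)).symm
  · intro p hp hc
    have hσ : σ = σ' := Equiv.ext fun x => h.1 x (by have := x.2; omega)
    subst hσ
    have h1 : ∀ x : Fin N, x < p → τ x = τ' x := fun x hx =>
      h.2 x (by rw [Fin.lt_def] at hx; omega)
    have h2 := hr.join p hp (canJoin_congr (fun x hx => (h1 x hx).symm) hc)
    have h3 := joins_congr h1 h2
    rwa [h.2 p (by omega)] at h3
  · intro p hp hp2 hc
    have hσ : σ = σ' := Equiv.ext fun x => h.1 x (by have := x.2; omega)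
    subst hσ
    have hτ : τ = τ' := perm_ext_last fun x hx => h.2 x (by omega)
    subst hτ
    exact hr.sign p hp hp2 hc

theorem rule_exists (hN : 3 ≤ N) (ho : Odd N) (σ τ : Perm (Fin N)) (m : ℕ) (hm : m < 2 * N)
    (he : Even m) : ∃ σ' τ', Agree σ τ σ' τ' m ∧ Rule σ' τ' m := by
  rcases Nat.lt_or_ge m (N - 1) with h | h
  · -- first word
    have hj : ∀ (σ' : Perm (Fin N)), ¬ IsMax σ' ⟨m, by omega⟩ → Rule σ' τ m := by
      intro σ' h1
      refine ⟨fun p hp _ => ?_, fun p hp => ?_, fun p hp => ?_⟩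
      · have : p = ⟨m, by omega⟩ := Fin.ext hp
        rw [this]
        exact h1
      · omega
      · omega
    by_cases hmax : IsMax σ ⟨m, by omega⟩
    · refine ⟨σ * swap (⟨m, by omega⟩ : Fin N) ⟨m + 1, by omega⟩, τ, ⟨fun x hx => ?_, fun x hx => rfl⟩,
        hj _ fun hmax2 => ?_⟩
      · rw [Perm.mul_apply, swap_apply_of_ne_of_ne]
        · intro h3; rw [h3] at hx; exact absurd hx (lt_irrefl _)
        · intro h3; rw [h3] at hx; simp at hx
      · have h1 := eq_cl (π := σ) (fun _ _ => rfl) hmax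
        have hag : ∀ x : Fin N, x < ⟨m, by omega⟩ →
            (σ * swap (⟨m, by omega⟩ : Fin N) ⟨m + 1, by omega⟩) x = σ x := by
          intro x hx
          rw [Fin.lt_def] at hx
          rw [Perm.mul_apply, swap_apply_of_ne_of_ne]
          · intro h3; rw [h3] at hx; exact absurd hx (lt_irrefl _)
          · intro h3; rw [h3] at hx; simp at hx
        have h2 := eq_cl (π := σ) hag hmax2
        rw [← h1, Perm.mul_apply, swap_apply_left] at h2
        have h3 := Fin.mk.inj (σ.injective h2)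
        omega
    · exact ⟨σ, τ, ⟨fun _ _ => rfl, fun _ _ => rfl⟩, hj σ hmax⟩
  · rcases Nat.lt_or_ge m N with h2 | h2
    · exact ⟨σ, τ, ⟨fun _ _ => rfl, fun _ _ => rfl⟩, fun p hp h3 => by omega,
        fun p hp => by omega, fun p hp => by omega⟩
    · obtain ⟨p, rfl⟩ : ∃ p, m = N + p := ⟨m - N, by omega⟩
      have hp : p < N := by omega
      have hpN : p ≤ N - 2 := by
        obtain ⟨a, ha⟩ := ho
        obtain ⟨b, hb⟩ := he
        omega
      have huniq : ∀ q : Fin N, N + p = N + q → q = ⟨p, hp⟩ := fun q hq =>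
        Fin.ext (by show (q : ℕ) = p; omega)
      by_cases hc : CanJoin σ τ ⟨p, hp⟩
      · obtain ⟨v, hv, hv2⟩ := hc
        obtain ⟨q, hq⟩ := τ.surjective v
        have hqp : ⟨p, hp⟩ ≤ q := by
          by_contra h5
          exact hv q (not_le.1 h5) hq
        have hag : ∀ x : Fin N, x < ⟨p, hp⟩ → τ x = (τ * swap ⟨p, hp⟩ q) x := by
          intro x hx
          rw [Perm.mul_apply, swap_apply_of_ne_of_ne]
          · exact hx.ne
          · exact (lt_of_lt_of_le hx hqp).ne
        have hval : (τ * swap ⟨p, hp⟩ q) ⟨p, hp⟩ = v := by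
          rw [Perm.mul_apply, swap_apply_left, hq]
        refine ⟨σ, τ * swap ⟨p, hp⟩ q, ⟨fun _ _ => rfl, fun x hx => hag x ?_⟩,
          fun _ _ h3 => by omega, fun r hr _ => ?_, fun r hr _ hnc => ?_⟩
        · rw [Fin.lt_def]
          show (x : ℕ) < p
          omega
        · rw [huniq r hr, hval]
          exact joins_congr hag hv2
        · exfalso
          rw [huniq r hr] at hnc
          exact hnc (canJoin_congr hag ⟨v, hv, hv2⟩)
      · by_cases hs : p = N - 2 ∧ Perm.sign τ = 1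
        · have hag : ∀ x : Fin N, x < ⟨p, hp⟩ →
              τ x = (τ * swap (⟨N - 2, by omega⟩ : Fin N) ⟨N - 1, by omega⟩) x := by
            intro x hx
            rw [Fin.lt_def] at hx
            have hx' : (x : ℕ) < p := hx
            rw [Perm.mul_apply, swap_apply_of_ne_of_ne]
            · intro h3; rw [h3] at hx'; simp at hx'; omega
            · intro h3; rw [h3] at hx'; simp at hx'; omega
          refine ⟨σ, τ * swap (⟨N - 2, by omega⟩ : Fin N) ⟨N - 1, by omega⟩,
            ⟨fun _ _ => rfl, fun x hx => hag x ?_⟩,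
            fun _ _ h3 => by omega, fun r hr hcj => ?_, fun r hr _ hnc => ?_⟩
          · rw [Fin.lt_def]
            show (x : ℕ) < p
            omega
          · exfalso
            rw [huniq r hr] at hcj
            exact hc (canJoin_congr (fun x hx => (hag x hx).symm) hcj)
          · rw [Perm.sign_mul, hs.2, Perm.sign_swap (by
              intro h3
              rw [Fin.mk.injEq] at h3
              omega)]
            rfl
        · refine ⟨σ, τ, ⟨fun _ _ => rfl, fun _ _ => rfl⟩, fun _ _ h3 => by omega,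
            fun r hr hcj => ?_, fun r hr hr2 _ => ?_⟩
          · exfalso
            rw [huniq r hr] at hcj
            exact hc hcj
          · rcases Int.units_eq_one_or (Perm.sign τ) with h5 | h5
            · exact absurd ⟨by omega, h5⟩ hs
            · exact h5

/-! ### the strategy -/

theorem history_congr {σ τ σ' τ' : Perm (Fin N)} {m : ℕ} (hm : m ≤ 2 * N)
    (h : Agree σ τ σ' τ' m) : history σ' τ' m hm = history σ τ m hm := by
  unfold history
  congr 1
  funext i
  unfold entry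
  split_ifs with h1
  · exact (h.1 _ i.2).symm
  · exact (h.2 _ (by have := i.2; show N + ((i : ℕ) - N) < m; omega)).symm

theorem agree_of_history {σ τ σ' τ' : Perm (Fin N)} {m : ℕ} (hm : m ≤ 2 * N)
    (h : history σ' τ' m hm = history σ τ m hm) (i : ℕ) (hi : i < m) :
    entry σ' τ' i (by omega) = entry σ τ i (by omega) := by
  have h1 := history_get σ τ m hm i hi
  rw [← h, history_get σ' τ' m hm i hi] at h1
  exact Option.some.inj h1

theorem agree_of_entry {σ τ σ' τ' : Perm (Fin N)} {m : ℕ} (hm : m ≤ 2 * N)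
    (h : ∀ i (hi : i < m), entry σ' τ' i (by omega) = entry σ τ i (by omega)) :
    Agree σ' τ' σ τ m := by
  constructor
  · intro x hx
    have h1 := h x hx
    unfold entry at h1
    simpa [x.2] using h1
  · intro x hx
    have h1 := h (N + x) hx
    unfold entry at h1
    simpa using h1

open Classical in
/-- the strategy of player A -/
noncomputable def stratA (v₀ : Fin N) (h : List (Fin N)) : Fin N :=
  if H : ∃ (q : Perm (Fin N) × Perm (Fin N)) (hm : h.length < 2 * N),
      history q.1 q.2 h.length hm.le = h ∧ Rule q.1 q.2 h.length then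
    entry H.choose.1 H.choose.2 h.length H.choose_spec.choose else v₀

theorem stratA_spec' (v₀ : Fin N) (h : List (Fin N)) (m : ℕ) (hl : h.length = m)
    (hm : m < 2 * N)
    (H : ∃ q : Perm (Fin N) × Perm (Fin N), history q.1 q.2 m hm.le = h ∧ Rule q.1 q.2 m) :
    ∃ q : Perm (Fin N) × Perm (Fin N), history q.1 q.2 m hm.le = h ∧ Rule q.1 q.2 m ∧
      stratA v₀ h = entry q.1 q.2 m hm := by
  subst hl
  have H' : ∃ (q : Perm (Fin N) × Perm (Fin N)) (hm : h.length < 2 * N),
      history q.1 q.2 h.length hm.le = h ∧ Rule q.1 q.2 h.length := by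
    obtain ⟨q, h1, h2⟩ := H
    exact ⟨q, hm, h1, h2⟩
  refine ⟨H'.choose, H'.choose_spec.choose_spec.1, H'.choose_spec.choose_spec.2, ?_⟩
  unfold stratA
  rw [dif_pos H']

theorem stratA_spec (hN : 3 ≤ N) (ho : Odd N) (v₀ : Fin N) (σ τ : Perm (Fin N)) (m : ℕ)
    (hm : m < 2 * N) (he : Even m) : ∃ σ' τ' : Perm (Fin N),
      (∀ i (hi : i < m), entry σ' τ' i (by omega) = entry σ τ i (by omega)) ∧ Rule σ' τ' m ∧
      stratA v₀ (history σ τ m hm.le) = entry σ' τ' m hm := by
  obtain ⟨σ', τ', h1, h2⟩ := rule_exists hN ho σ τ m hm he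
  obtain ⟨q, h3, h4, h5⟩ := stratA_spec' v₀ (history σ τ m hm.le) m (history_length _ _ _ _) hm
    ⟨(σ', τ'), history_congr hm.le h1, h2⟩
  exact ⟨q.1, q.2, fun i hi => agree_of_history hm.le h3 i hi, h4, h5⟩

theorem rule_of_follows (hN : 3 ≤ N) (ho : Odd N) (v₀ : Fin N) (σ τ : Perm (Fin N)) (m : ℕ)
    (hm : m < 2 * N) (he : Even m)
    (h : entry σ τ m hm = stratA v₀ (history σ τ m hm.le)) : Rule σ τ m := by
  obtain ⟨σ', τ', h1, h2, h3⟩ := stratA_spec hN ho v₀ σ τ m hm he
  refine rule_congr hN (agree_of_entry (by omega) ?_) h2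
  intro i hi
  rcases Nat.lt_or_ge i m with h4 | h4
  · exact h1 i h4
  · have : i = m := by omega
    subst this
    rw [← h3, ← h]

end Pool.Agent.J4H88.PG
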