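import Mathlib
import Pool.Agent.J4H88.PG.Force

set_option autoImplicit false

namespace Pool.Agent.J4H88.PG

open Equiv Pool.Agent.Results.MP_337ab5_co.GameConventionOne

variable {N : ℕ}

/-- the invariant functions are constant -/
theorem const_of_rule (hN : 3 ≤ N) (ho : Odd N) {σ τ : Perm (Fin N)}
    (hr : ∀ m, m < 2 * N → Even m → Rule σ τ m) (f : Fin N → ℚ) (h1 : ∀ x, f (σ x) = f x)
    (h2 : ∀ x, f (τ x) = f x) : ∀ x, f x = f ⟨N - 1, by omega⟩ := by
  classical
  by_contra hcon
  push Not at hcon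
  set l : Fin N := ⟨N - 1, by omega⟩ with hl
  set S : Finset (Fin N) := Finset.univ.filter fun x => f x ≠ f l with hS
  have hne : S.Nonempty := by
    obtain ⟨x, hx⟩ := hcon
    exact ⟨x, by simp [hS, hx]⟩
  set p := S.max' hne with hp
  have hpS : f p ≠ f l := by
    have h3 := S.max'_mem hne
    rw [← hp, hS, Finset.mem_filter] at h3
    exact h3.2
  have hmax : ∀ x, f x ≠ f l → x ≤ p := fun x hx =>
    S.le_max' x (by rw [hS, Finset.mem_filter]; exact ⟨Finset.mem_univ _, hx⟩)
  have hpl : (p : ℕ) < N - 1 := by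
    have h3 := p.2
    rcases Nat.lt_or_ge (p : ℕ) (N - 1) with h4 | h4
    · exact h4
    · exfalso
      apply hpS
      have : p = l := Fin.ext (by rw [hl]; show (p : ℕ) = N - 1; omega)
      rw [this]
  have hpow : ∀ (n : ℕ) x, f ((σ ^ n) x) = f x := by
    intro n
    induction n with
    | zero => intro x; rfl
    | succ n ih => intro x; rw [pow_succ', Perm.mul_apply, h1, ih]
  have hMax : IsMax σ p := by
    intro x hx
    apply hmax
    obtain ⟨n, -, hn⟩ := hx.exists_pow_eq'
    rw [← hn, hpow]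
    exact hpS
  have hodd : Odd (p : ℕ) := by
    rw [← Nat.not_even_iff_odd]
    intro he
    exact (hr p (by omega) he).first p rfl hpl hMax
  have hev : Even (N + (p : ℕ)) := ho.add_odd hodd
  have hR := hr (N + p) (by omega) hev
  have hcj : CanJoin σ τ p := by
    refine ⟨τ l, fun j hj h3 => ?_, f, ⟨h1, fun x _ => h2 x⟩, by rw [h2]; exact hpS.symm⟩
    have h4 := τ.injective h3
    rw [h4, Fin.lt_def] at hj
    have : (l : ℕ) = N - 1 := rfl
    omega
  obtain ⟨g, ⟨hg1, hg2⟩, hg3⟩ := hR.join p rfl hcj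
  -- cut off `g`
  set g' : Fin N → ℚ := fun x => if f x = f p then g x else 0 with hg'
  have hsum : ∑ x, g' (τ x) = ∑ x, g' x := Equiv.sum_comp τ g'
  have hag : ∀ x, x ≠ p → g' (τ x) = g' x := by
    intro x hx
    simp only [hg', h2]
    by_cases h3 : f x = f p
    · rw [if_pos h3, if_pos h3]
      apply hg2
      have h4 := hmax x (by rw [h3]; exact hpS)
      exact Fin.lt_def.1 (lt_of_le_of_ne h4 hx)
    · rw [if_neg h3, if_neg h3]
  have h5 : g' (τ p) = g' p := by
    rw [← Finset.add_sum_erase _ _ (Finset.mem_univ p),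
      ← Finset.add_sum_erase _ g' (Finset.mem_univ p)] at hsum
    have h6 : ∑ x ∈ Finset.univ.erase p, g' (τ x) = ∑ x ∈ Finset.univ.erase p, g' x :=
      Finset.sum_congr rfl fun x hx => hag x (Finset.ne_of_mem_erase hx)
    rw [h6] at hsum
    exact add_right_cancel hsum
  simp only [hg', h2] at h5
  rw [if_pos trivial, if_pos trivial] at h5
  exact hg3 h5

/-- if no free value joins, then `W` consists of constants -/
theorem canJoin_of (hN : 3 ≤ N) (ho : Odd N) {σ τ : Perm (Fin N)}
    (hr : ∀ m, m < 2 * N → Even m → Rule σ τ m) (p : Fin N) (h : ¬ CanJoin σ τ p)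
    (f : Fin N → ℚ) (hf : f ∈ W σ τ p) : ∀ x, f x = f ⟨N - 1, by omega⟩ := by
  classical
  have hfree : ∀ x : Fin N, p ≤ x → f (τ x) = f p := by
    intro x hx
    by_contra h1
    refine h ⟨τ x, fun j hj h2 => ?_, f, hf, h1⟩
    rw [τ.injective h2] at hj
    exact absurd hx (not_le.2 hj)
  have hsum : ∑ x, (f (τ x) - f p) ^ 2 = ∑ x, (f x - f p) ^ 2 :=
    Equiv.sum_comp τ fun x => (f x - f p) ^ 2
  have h1 : ∑ x, ((f x - f p) ^ 2 - (f (τ x) - f p) ^ 2) = 0 := by
    rw [Finset.sum_sub_distrib, hsum, sub_self]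
  have h2 : ∀ x, 0 ≤ (f x - f p) ^ 2 - (f (τ x) - f p) ^ 2 := by
    intro x
    rcases lt_or_ge x p with h3 | h3
    · rw [hf.2 x (Fin.lt_def.1 h3), sub_self]
    · rw [hfree x h3, sub_self]
      simp only [ne_eq, OfNat.ofNat_ne_zero, not_false_eq_true, zero_pow, sub_zero]
      positivity
  have h3 := (Finset.sum_eq_zero_iff_of_nonneg fun x _ => h2 x).1 h1
  have h4 : ∀ x, f (τ x) = f x := by
    intro x
    rcases lt_or_ge x p with h5 | h5
    · exact hf.2 x (Fin.lt_def.1 h5)
    · have h6 := h3 x (Finset.mem_univ _)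
      rw [hfree x h5, sub_self, zero_pow two_ne_zero, sub_zero] at h6
      have h7 : f x - f p = 0 := pow_eq_zero_iff two_ne_zero |>.1 h6
      rw [hfree x h5]
      linarith
  exact const_of_rule hN ho hr f hf.1 h4

theorem W_mono (σ τ : Perm (Fin N)) {p q : ℕ} (h : p ≤ q) : W σ τ q ≤ W σ τ p :=
  fun _ hf => ⟨hf.1, fun x hx => hf.2 x (by omega)⟩

/-- a space of constants has dimension at most one -/
theorem finrank_const (hN : 3 ≤ N) (U : Submodule ℚ (Fin N → ℚ))
    (h : ∀ f ∈ U, ∀ x, f x = f ⟨N - 1, by omega⟩) : Module.finrank ℚ U ≤ 1 := by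
  have h1 : U ≤ Submodule.span ℚ {fun _ => (1 : ℚ)} := by
    intro f hf
    rw [Submodule.mem_span_singleton]
    refine ⟨f ⟨N - 1, by omega⟩, ?_⟩
    funext x
    simp [h f hf x]
  exact (Submodule.finrank_mono h1).trans ((finrank_span_le_card _).trans (by simp))

theorem const_of_finrank (hN : 3 ≤ N) {σ τ : Perm (Fin N)} {p : ℕ}
    (h : Module.finrank ℚ (W σ τ p) ≤ 1) (f : Fin N → ℚ) (hf : f ∈ W σ τ p) :
    ∀ x y, f x = f y := by
  have h1 : (fun _ => (1 : ℚ)) ∈ W σ τ p := ⟨fun _ => rfl, fun _ _ => rfl⟩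
  have h0 : (⟨fun _ => (1 : ℚ), h1⟩ : W σ τ p) ≠ 0 := by
    intro h2
    have h3 := congrArg (fun g : W σ τ p => (g : Fin N → ℚ) ⟨0, by omega⟩) h2
    simp at h3
  obtain ⟨v, hv⟩ := finrank_le_one_iff.1 h
  obtain ⟨c, hc⟩ := hv ⟨_, h1⟩
  obtain ⟨d, hd⟩ := hv ⟨f, hf⟩
  have hc' : ∀ x, c * (v : Fin N → ℚ) x = 1 := fun x =>
    congrFun (congrArg Subtype.val hc) x
  have hd' : ∀ x, d * (v : Fin N → ℚ) x = f x := fun x =>
    congrFun (congrArg Subtype.val hd) x
  intro x y
  have hc0 : c ≠ 0 := by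
    intro h2
    have := hc' x
    rw [h2, zero_mul] at this
    exact zero_ne_one this
  have hxy : (v : Fin N → ℚ) x = (v : Fin N → ℚ) y :=
    mul_left_cancel₀ hc0 ((hc' x).trans (hc' y).symm)
  rw [← hd', ← hd', hxy]

/-- the number of the cycles of the first word -/
theorem W_zero_le (σ τ : Perm (Fin N)) : Module.finrank ℚ (W σ τ 0) ≤ (lab σ).card := by
  rw [← finrank_V]
  apply Submodule.finrank_mono
  rintro f ⟨hf, -⟩
  have hpow : ∀ (n : ℕ) x, f ((σ ^ n) x) = f x := by
    intro n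
    induction n with
    | zero => intro x; rfl
    | succ n ih => intro x; rw [pow_succ', Perm.mul_apply, hf, ih]
  have hsel : ∀ l : lab σ, ∃ x, label σ x = l.1 := by
    rintro ⟨l, hl⟩
    obtain ⟨x, -, hx⟩ := Finset.mem_image.1 hl
    exact ⟨x, hx⟩
  choose s hs using hsel
  refine ⟨fun l => f (s l), ?_⟩
  funext y
  simp only [LinearMap.funLeft_apply]
  have hmem : label σ y ∈ lab σ := Finset.mem_image_of_mem _ (Finset.mem_univ _)
  obtain ⟨n, -, hn⟩ := (sameCycle_of_label (hs ⟨label σ y, hmem⟩)).exists_pow_eq'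
  have h1 := hpow n (s ⟨label σ y, hmem⟩)
  rw [hn] at h1
  exact h1.symm

theorem card_lab_le {k : ℕ} (hN : N = 4 * k + 3) {σ : Perm (Fin N)}
    (h : ∀ p : Fin N, Even (p : ℕ) → (p : ℕ) < N - 1 → ¬ IsMax σ p) :
    (lab σ).card ≤ 2 * k + 2 := by
  classical
  have hsel : ∀ l : lab σ, ∃ p, label σ p = l.1 ∧ IsMax σ p := by
    rintro ⟨l, hl⟩
    have hne : (Finset.univ.filter fun x => label σ x = l).Nonempty := by
      obtain ⟨x, -, hx⟩ := Finset.mem_image.1 hl
      exact ⟨x, by simp [hx]⟩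
    have h1 := Finset.max'_mem _ hne
    rw [Finset.mem_filter] at h1
    refine ⟨_, h1.2, fun x hx => ?_⟩
    apply Finset.le_max'
    rw [Finset.mem_filter]
    exact ⟨Finset.mem_univ _, (label_of_sameCycle hx).symm.trans h1.2⟩
  choose s hs using hsel
  have hlt : ∀ l, (s l : ℕ) / 2 < 2 * k + 2 := by
    intro l
    have := (s l).2
    omega
  have hinj : Function.Injective fun l => (⟨(s l : ℕ) / 2, hlt l⟩ : Fin (2 * k + 2)) := by
    intro a b hab
    have h1 := Fin.mk.inj hab
    have hodd : ∀ l, (s l : ℕ) % 2 = 1 ∨ (s l : ℕ) = N - 1 := by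
      intro l
      have h2 := (s l).2
      by_contra h3
      rw [not_or] at h3
      exact h (s l) (Nat.even_iff.2 (by omega)) (by omega) (hs l).2
    have h2 : (s a : ℕ) = s b := by
      have := hodd a
      have := hodd b
      have := (s a).2
      have := (s b).2
      omega
    have h3 : s a = s b := Fin.ext h2
    apply Subtype.ext
    rw [← (hs a).1, ← (hs b).1, h3]
  have h1 := Fintype.card_le_of_injective _ hinj
  simpa using h1

theorem sign_or {k : ℕ} (hN : N = 4 * k + 3) {σ τ : Perm (Fin N)}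
    (hr : ∀ m, m < 2 * N → Even m → Rule σ τ m) : Perm.sign σ = -1 ∨ Perm.sign τ = -1 := by
  have h3 : 3 ≤ N := by omega
  have ho : Odd N := ⟨2 * k + 1, by omega⟩
  rcases Int.units_eq_one_or (Perm.sign σ) with hs | hs
  · right
    have hc := card_lab_le hN (σ := σ) fun p he hp => (hr p (by omega) he).first p rfl hp
    have hc2 : (lab σ).card ≤ 2 * k + 1 := by
      have h1 := card_lab σ
      rw [Perm.sign_of_cycleType, Perm.sum_cycleType] at hs
      have h2 : Even (σ.support.card + Multiset.card σ.cycleType) := by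
        rcases Nat.even_or_odd (σ.support.card + Multiset.card σ.cycleType) with h4 | h4
        · exact h4
        · rw [h4.neg_one_pow] at hs
          exact absurd hs (by decide)
      obtain ⟨r, hr2⟩ := h2
      omega
    have key : ∀ i, i ≤ 2 * k → Module.finrank ℚ (W σ τ (2 * i + 1)) ≤ max 1 (2 * k + 1 - i) := by
      intro i
      induction i with
      | zero =>
        intro _
        have h1 := Submodule.finrank_mono (W_mono σ τ (show 0 ≤ 2 * 0 + 1 by omega))
        have h2 := W_zero_le σ τ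
        omega
      | succ i ih =>
        intro hi
        have h1 := ih (by omega)
        by_cases h2 : Module.finrank ℚ (W σ τ (2 * i + 1)) ≤ 1
        · have h4 := Submodule.finrank_mono (W_mono σ τ (show 2 * i + 1 ≤ 2 * (i + 1) + 1 by omega))
          omega
        · have hp : 2 * i + 1 < N := by omega
          have hcj : CanJoin σ τ ⟨2 * i + 1, hp⟩ := by
            by_contra h4
            exact h2 (finrank_const h3 _ fun f hf => canJoin_of h3 ho hr _ h4 f hf)
          have hR := hr (N + (2 * i + 1)) (by omega) ⟨2 * k + i + 2, by omega⟩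
          obtain ⟨g, hg, hg2⟩ := hR.join ⟨2 * i + 1, hp⟩ rfl hcj
          have hlt : W σ τ (2 * (i + 1) + 1) < W σ τ (2 * i + 1) := by
            refine lt_of_le_of_ne (W_mono σ τ (by omega)) fun h5 => ?_
            have h6 : g ∈ W σ τ (2 * (i + 1) + 1) := by
              rw [h5]
              exact hg
            exact hg2 (h6.2 ⟨2 * i + 1, hp⟩ (by show 2 * i + 1 < 2 * (i + 1) + 1; omega))
          have h7 := Submodule.finrank_lt_finrank_of_lt hlt
          omega
    have h1 := key (2 * k) le_rfl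
    have h2 : Module.finrank ℚ (W σ τ (N - 2)) ≤ 1 := by
      have : N - 2 = 2 * (2 * k) + 1 := by omega
      rw [this]
      omega
    have hnc : ¬ CanJoin σ τ ⟨N - 2, by omega⟩ := by
      rintro ⟨v, -, f, hf, hf2⟩
      exact hf2 (const_of_finrank h3 h2 f hf _ _)
    exact (hr (N + (N - 2)) (by omega) ⟨4 * k + 2, by omega⟩).sign ⟨N - 2, by omega⟩ rfl rfl hnc
  · left; exact hs

/-- transitivity -/
theorem transitive_of_rule (hN : 3 ≤ N) (ho : Odd N) {σ τ : Perm (Fin N)}
    (hr : ∀ m, m < 2 * N → Even m → Rule σ τ m) (x y : Fin N) :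
    ∃ g ∈ Subgroup.closure {σ, τ}, g x = y := by
  classical
  set f : Fin N → ℚ := fun z => if ∃ g ∈ Subgroup.closure {σ, τ}, g x = z then 1 else 0 with hf
  have hinv : ∀ h ∈ Subgroup.closure {σ, τ}, ∀ z, f (h z) = f z := by
    intro h hh z
    simp only [hf]
    congr 1
    apply propext
    constructor
    · rintro ⟨g, hg, hg2⟩
      exact ⟨h⁻¹ * g, Subgroup.mul_mem _ (Subgroup.inv_mem _ hh) hg, by
        rw [Perm.mul_apply, hg2, inv_ap]⟩
    · rintro ⟨g, hg, hg2⟩
      exact ⟨h * g, Subgroup.mul_mem _ hh hg, by rw [Perm.mul_apply, hg2]⟩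
  have hc := const_of_rule hN ho hr f (hinv σ (Subgroup.subset_closure (by simp)))
    (hinv τ (Subgroup.subset_closure (by simp)))
  have h1 : f x = 1 := by
    simp only [hf]
    rw [if_pos ⟨1, Subgroup.one_mem _, rfl⟩]
  have h2 : f y = 1 := by rw [hc y, ← hc x, h1]
  by_contra hcon
  simp only [hf] at h2
  rw [if_neg hcon] at h2
  exact zero_ne_one h2

/-- **The strategy of player A for `N = 4 k + 3`.** -/
theorem force {k : ℕ} (hN : N = 4 * k + 3) : HasWinningStrategy N turnII fun σ τ =>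
    (∀ x y, ∃ g ∈ Subgroup.closure {σ, τ}, g x = y) ∧
      ¬ Subgroup.closure {σ, τ} ≤ alternatingGroup (Fin N) := by
  have h3 : 3 ≤ N := by omega
  have ho : Odd N := ⟨2 * k + 1, by omega⟩
  refine ⟨stratA ⟨0, by omega⟩, ?_, ?_⟩
  · intro σ τ m hm ht hf i hi hmi hcon
    obtain ⟨σ', τ', h1, h2, h4⟩ := stratA_spec h3 ho (⟨0, by omega⟩ : Fin N) σ τ m hm ht
    rw [h4, ← h1 i hi] at hcon
    unfold entry at hcon
    split_ifs at hcon with h5 h6 h6
    · have := Fin.mk.inj (σ'.injective hcon)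
      omega
    · omega
    · omega
    · have := Fin.mk.inj (τ'.injective hcon)
      omega
  · intro σ τ hf
    have hr : ∀ m, m < 2 * N → Even m → Rule σ τ m := fun m hm he =>
      rule_of_follows h3 ho _ σ τ m hm he (hf m hm hm he)
    refine ⟨transitive_of_rule h3 ho hr, fun hle => ?_⟩
    have h1 : Perm.sign σ = 1 := hle (Subgroup.subset_closure (by simp))
    have h2 : Perm.sign τ = 1 := hle (Subgroup.subset_closure (by simp))
    rcases sign_or hN hr with h4 | h4
    · rw [h4] at h1; exact absurd h1 (by decide)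
    · rw [h4] at h2; exact absurd h2 (by decide)

end Pool.Agent.J4H88.PG
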